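import Pool.Agent.helper21.OE.SpecA

/-!
# Project OE (MP_2e0e07_nt), row USU: `U_ℓ` preserves the modular symbols of level `ℓ ^ r`
-/

set_option autoImplicit false

namespace Pool.Agent.OE

open MvPolynomial Matrix

/-- the matrix of the operator -/
def USU_M (d t : ℤ) {ℓ : ℕ} (x : Fin ℓ × Fin ℓ) : Mat d t :=
  !![1, rep d t x; 0, ((ℓ : ℕ) : Oz d t)]

theorem USU_adj (d t : ℤ) {ℓ : ℕ} (x : Fin ℓ × Fin ℓ) :
    (USU_M d t x).adjugate = !![((ℓ : ℕ) : Oz d t), - rep d t x; 0, 1] := by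
  rw [USU_M, Matrix.adjugate_fin_two_of, neg_zero]

theorem USU_opU {d t : ℤ} {A : Type} [CommRing A] (f : Oz d t →+* A) (ℓ : ℕ) (φ : Sy d t A)
    (u v : Vec d t) : opU f ℓ φ u v = ∑ x : Fin ℓ × Fin ℓ,
      act f (USU_M d t x).adjugate (φ (USU_M d t x *ᵥ u) (USU_M d t x *ᵥ v)) := by
  simp only [USU_adj]
  rfl

theorem USU_tor (d t : ℤ) (ℓ : ℕ) (hℓ : ℓ ≠ 0) (z : Oz d t)
    (h : ((ℓ : ℕ) : Oz d t) * z = 0) : z = 0 := by
  have h1 := congrArg QuadraticAlgebra.re h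
  have h2 := congrArg QuadraticAlgebra.im h
  simp only [QuadraticAlgebra.re_mul, QuadraticAlgebra.im_mul, QuadraticAlgebra.re_natCast,
    QuadraticAlgebra.im_natCast, QuadraticAlgebra.re_zero, QuadraticAlgebra.im_zero] at h1 h2
  have hz : ((ℓ : ℕ) : ℤ) ≠ 0 := by exact_mod_cast hℓ
  have e1 : ((ℓ : ℕ) : ℤ) * z.re = 0 := by linarith
  have e2 : ((ℓ : ℕ) : ℤ) * z.im = 0 := by linarith
  have g1 : z.re = 0 := (mul_eq_zero.1 e1).resolve_left hz
  have g2 : z.im = 0 := (mul_eq_zero.1 e2).resolve_left hz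
  exact QuadraticAlgebra.ext g1 g2

theorem USU_ne (d t : ℤ) {ℓ : ℕ} (hℓ : ℓ ≠ 0) (x : Fin ℓ × Fin ℓ) (u : Vec d t)
    (hu : u ≠ 0) : USU_M d t x *ᵥ u ≠ 0 := by
  intro h
  apply hu
  have h0 := congrFun h 0
  have h1 := congrFun h 1
  simp only [USU_M, Matrix.mulVec, dotProduct, Fin.sum_univ_two, Matrix.of_apply,
    Matrix.cons_val', Matrix.cons_val_zero, Matrix.cons_val_one, Matrix.cons_val_fin_one,
    one_mul, zero_mul, zero_add, Pi.zero_apply] at h0 h1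
  have e1 : u 1 = 0 := USU_tor d t ℓ hℓ _ h1
  have e0 : u 0 = 0 := by
    rw [e1, mul_zero, add_zero] at h0
    exact h0
  ext1 i
  fin_cases i
  · exact e0
  · exact e1

theorem USU_hsum {A : Type} [CommRing A] {ι : Type} (s : Finset ι) (k : ℕ)
    (P : ι → Pol A) (h : ∀ i ∈ s, BiHom k (P i)) : BiHom k (∑ i ∈ s, P i) := by
  refine ⟨?_, ?_⟩
  · exact (weightedHomogeneousSubmodule A _ k).sum_mem fun i hi => (h i hi).1
  · exact (weightedHomogeneousSubmodule A _ k).sum_mem fun i hi => (h i hi).2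

theorem USU (hTR1 : TR1_stmt) (hTR2 : TR2_stmt) (hPRV : PRV_stmt) (hCNJ : CNJ_stmt)
    (hACH : ACH_stmt) : USU_stmt := by
  intro d t ht ℓ hℓ A _ f k r χ hr hχ φ hφ
  have hℓ0 : ℓ ≠ 0 := hℓ.ne_zero
  refine ⟨fun v => ?_, fun u => ?_, fun u v w hu hv hw => ?_, fun c u v hc => ?_,
    fun c u v hc => ?_, fun u v => ?_, fun γ u v hγ => ?_⟩
  · rw [USU_opU]
    refine Finset.sum_eq_zero fun x _ => ?_
    rw [Matrix.mulVec_zero, hφ.zero_left, map_zero]
  · rw [USU_opU]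
    refine Finset.sum_eq_zero fun x _ => ?_
    rw [Matrix.mulVec_zero, hφ.zero_right, map_zero]
  · rw [USU_opU, USU_opU, USU_opU, ← Finset.sum_add_distrib]
    refine Finset.sum_congr rfl fun x _ => ?_
    rw [← map_add, hφ.add _ _ _ (USU_ne d t hℓ0 x u hu) (USU_ne d t hℓ0 x v hv)
      (USU_ne d t hℓ0 x w hw)]
  · rw [USU_opU, USU_opU]
    refine Finset.sum_congr rfl fun x _ => ?_
    rw [Matrix.mulVec_smul, hφ.smul_left c _ _ hc]
  · rw [USU_opU, USU_opU]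
    refine Finset.sum_congr rfl fun x _ => ?_
    rw [Matrix.mulVec_smul, hφ.smul_right c _ _ hc]
  · rw [USU_opU]
    exact USU_hsum _ _ _ fun x _ => hACH f _ k _ (hφ.hom _ _)
  · have hγ' : ((ℓ : ℕ) : Oz d t) ^ r ∣ γ.val 1 0 := by
      have h := hγ
      rw [Nat.cast_pow] at h
      exact h
    have hγ1 : ((ℓ : ℕ) : Oz d t) ∣ γ.val 1 0 :=
      (dvd_pow_self _ (by omega)).trans hγ'
    obtain ⟨σ, hσ⟩ := hPRV d t ht ℓ hℓ γ hγ1
    rw [USU_opU, USU_opU, map_sum, Finset.smul_sum]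
    have key : ∀ x : Fin ℓ × Fin ℓ,
        act f (USU_M d t x).adjugate (φ (USU_M d t x *ᵥ (γ.val *ᵥ u)) (USU_M d t x *ᵥ (γ.val *ᵥ v))) =
        χ (γ.val 1 1) • act f γ.val (act f (USU_M d t (σ x)).adjugate
          (φ (USU_M d t (σ x) *ᵥ u) (USU_M d t (σ x) *ᵥ v))) := by
      intro x
      obtain ⟨h, h01, h10, h11, hx⟩ := hσ x
      obtain ⟨h', hc, hc10, hc11⟩ := hCNJ d t ℓ hℓ0 h h01
      have hM : ∀ y : Fin ℓ × Fin ℓ, USU_M d t y =
          (!![1, 0; 0, ((ℓ : ℕ) : Oz d t)] : Mat d t) * !![1, rep d t y; 0, 1] := by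
        intro y
        rw [USU_M, Matrix.mul_fin_two]
        simp only [mul_one, one_mul, mul_zero, zero_mul, add_zero, zero_add]
      have hmul : USU_M d t x * γ.val = h'.val * USU_M d t (σ x) := by
        rw [hM x, hM (σ x), Matrix.mul_assoc, hx, ← Matrix.mul_assoc, hc, Matrix.mul_assoc]
      have hN : ((ℓ ^ r : ℕ) : Oz d t) ∣ h'.val 1 0 := by
        rw [hc10, h10]
        exact Dvd.dvd.mul_left hγ _
      have hχ' : χ (h'.val 1 1) = χ (γ.val 1 1) := by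
        apply hχ
        rw [hc11, h11]
        have e : γ.val 1 1 - γ.val 1 0 * rep d t (σ x) - γ.val 1 1 =
          γ.val 1 0 * (- rep d t (σ x)) := by ring
        rw [e]
        exact Dvd.dvd.mul_right hγ' _
      rw [Matrix.mulVec_mulVec, Matrix.mulVec_mulVec, hTR2 d t ht f k _ (hφ.hom _ _) _ γ, hmul,
        hTR1 d t ht f k (ℓ ^ r) χ φ hφ _ h' hN u v, hχ', map_smul]
    rw [Finset.sum_congr rfl fun x _ => key x]
    exact Equiv.sum_comp σ (fun y => χ (γ.val 1 1) • act f γ.val (act f (USU_M d t y).adjugate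
          (φ (USU_M d t y *ᵥ u) (USU_M d t y *ᵥ v))))

end Pool.Agent.OE
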